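import Pool.Agent.J4H20.LV.Stm

/-!
# Project LV: the piece (HZ)
-/

set_option autoImplicit false

namespace Pool.Agent.J4H70.LV

open Polynomial Pool.Agent.J4H20.LV

/-- an integer in a residue class near a real number -/
lemma near (N : ℕ) (hN : 0 < N) (r : ℤ) (y : ℝ) : ∃ c : ℤ, (N : ℤ) ∣ c - r ∧ |(c : ℝ) - y| ≤ N := by
  have hN' : (0 : ℝ) < N := by exact_mod_cast hN
  refine ⟨r + N * ⌊(y - r) / N⌋, by rw [add_sub_cancel_left]; exact dvd_mul_right _ _, ?_⟩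
  have h1 : (⌊(y - r) / N⌋ : ℝ) ≤ (y - r) / N := Int.floor_le _
  have h2 : (y - r) / N < ⌊(y - r) / N⌋ + 1 := Int.lt_floor_add_one _
  rw [le_div_iff₀ hN'] at h1
  rw [div_lt_iff₀ hN'] at h2
  rw [abs_le]
  push_cast
  constructor <;> nlinarith

lemma near2 (T W : ℕ) (hT : 0 < T) (hW : 0 < W) (hco : Nat.Coprime T W) (r : ℤ) (y : ℝ) :
    ∃ c : ℤ, (T : ℤ) ^ 2 ∣ c - r ∧ (W : ℤ) ∣ c - 1 ∧ |(c : ℝ) - y| ≤ (T ^ 2 * W : ℕ) := by
  have h1 : IsCoprime ((T : ℤ) ^ 2) (W : ℤ) := by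
    apply IsCoprime.pow_left
    exact Nat.isCoprime_iff_coprime.2 hco
  obtain ⟨u, v, huv⟩ := h1
  -- r' = r * v * W + 1 * u * T^2
  obtain ⟨c, hc1, hc2⟩ := near (T ^ 2 * W) (by positivity) (r * (v * W) + u * (T : ℤ) ^ 2) y
  push_cast at hc1
  refine ⟨c, ?_, ?_, hc2⟩
  · have e : c - r = (c - (r * (v * W) + u * (T : ℤ) ^ 2)) + (T : ℤ) ^ 2 * (u - r * u) := by
      have : v * W = 1 - u * (T : ℤ) ^ 2 := by linarith
      rw [this]; ring
    rw [e]
    exact dvd_add (dvd_of_mul_right_dvd hc1) (dvd_mul_right _ _)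
  · have e : c - 1 = (c - (r * (v * W) + u * (T : ℤ) ^ 2)) + W * (r * v - v) := by
      have : u * (T : ℤ) ^ 2 = 1 - v * W := by linarith
      rw [this]; ring
    rw [e]
    exact dvd_add (dvd_of_mul_left_dvd hc1) (dvd_mul_right _ _)

/-- (HZ) -/
theorem t_HZ : S_HZ := by
  intro j T W h h₁ δ hT hW hco hh hhn hh₁ hhn₁ hδ
  have hN0 : 0 < T ^ 2 * W := by positivity
  refine ⟨max 1 ((T ^ 2 * W : ℕ) / δ), by positivity, fun Λ hΛ => ?_⟩
  have hΛ1 : 1 < Λ := (le_max_left _ _).trans_lt hΛ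
  have hΛ2 : ((T ^ 2 * W : ℕ) : ℝ) / δ < Λ := (le_max_right _ _).trans_lt hΛ
  have hex : ∀ i : ℕ, ∃ c : ℤ, (T : ℤ) ^ 2 ∣ c - h₁.coeff i ∧ (W : ℤ) ∣ c - 1 ∧
      |(c : ℝ) - h.coeff i * Λ ^ (j - i)| ≤ (T ^ 2 * W : ℕ) :=
    fun i => near2 T W hT hW hco (h₁.coeff i) (h.coeff i * Λ ^ (j - i))
  choose c hc1 hc2 hc3 using hex
  set p : ℤ[X] := ∑ i ∈ Finset.range j, C (c i) * X ^ i with hp
  have hpc : ∀ i, p.coeff i = if i < j then c i else 0 := by
    intro i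
    rw [hp, finsetSum_coeff]
    simp only [coeff_C_mul, coeff_X_pow, mul_ite, mul_one, mul_zero]
    rw [Finset.sum_ite_eq]
    simp only [Finset.mem_range]
  have hpd : p.degree < (j : ℕ) := by
    rw [degree_lt_iff_coeff_zero]
    intro i hi
    rw [hpc, if_neg (by omega)]
  have hcoeff : ∀ i, (X ^ j + p).coeff i = if i < j then c i else if i = j then 1 else 0 := by
    intro i
    rw [coeff_add, hpc, coeff_X_pow]
    split_ifs <;> omega
  have hmon : (X ^ j + p).Monic := monic_X_pow_add (by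
    exact hpd)
  have hnd : (X ^ j + p).natDegree = j := by
    apply natDegree_eq_of_degree_eq_some
    rw [degree_add_eq_left_of_degree_lt (by rw [degree_X_pow]; exact hpd), degree_X_pow]
  have hh₁c : h₁.coeff j = 1 := by rw [← hhn₁]; exact hh₁
  have hhc : h.coeff j = 1 := by rw [← hhn]; exact hh
  refine ⟨X ^ j + p, hmon, hnd, ?_, ?_, ?_⟩
  · rw [C_dvd_iff_dvd_coeff]
    intro i
    rw [coeff_sub, hcoeff]
    split_ifs with h1 h2
    · exact hc1 i
    · subst h2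
      rw [hh₁c, sub_self]
      exact dvd_zero _
    · rw [coeff_eq_zero_of_natDegree_lt (by omega), sub_zero]
      exact dvd_zero _
  · rw [← coeff_zero_eq_eval_zero, hcoeff]
    split_ifs with h1 h2
    · exact hc2 0
    · simp
    · omega
  · intro i hi
    rw [hcoeff]
    split_ifs with h1 h2
    · have hpow : 0 < Λ ^ (j - i) := by positivity
      have e : (c i : ℝ) / Λ ^ (j - i) - h.coeff i = ((c i : ℝ) - h.coeff i * Λ ^ (j - i)) / Λ ^ (j - i) := by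
        field_simp
      rw [e, abs_div, abs_of_pos hpow, div_lt_iff₀ hpow]
      refine (hc3 i).trans_lt ?_
      have h3 : Λ ≤ Λ ^ (j - i) := le_self_pow₀ hΛ1.le (by omega)
      rw [div_lt_iff₀ hδ] at hΛ2
      calc ((T ^ 2 * W : ℕ) : ℝ) < Λ * δ := hΛ2
        _ = δ * Λ := mul_comm _ _
        _ ≤ δ * Λ ^ (j - i) := mul_le_mul_of_nonneg_left h3 hδ.le
    · subst h2
      rw [hhc]
      simpa using hδ
    · omega

end Pool.Agent.J4H70.LV
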