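import Pool.Agent.J4H20.LV.Stm

/-!
# Project LV: the piece (NAT)
-/

set_option autoImplicit false

namespace Pool.Agent.J4H70.LV

open Polynomial Pool.Agent.J4H20.LV

lemma expand (A B : ℤ[X]) (e j : ℕ) (hj : j < e) (hA : A.natDegree ≤ e) (hB : B.natDegree ≤ j) (n : ℕ) :
    ∃ Q : ℤ[X], (A + B) ^ (n + 1) = A ^ (n + 1) + C ((n + 1 : ℕ) : ℤ) * A ^ n * B + Q ∧
      Q.degree < (n * e + j : ℕ) := by
  have hA' : A.degree ≤ (e : ℕ) := degree_le_of_natDegree_le hA
  have hB' : B.degree ≤ (j : ℕ) := degree_le_of_natDegree_le hB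
  induction n with
  | zero =>
    refine ⟨0, by simp, ?_⟩
    rw [degree_zero]
    exact WithBot.bot_lt_coe _
  | succ n ih =>
    obtain ⟨Q, hQ1, hQ2⟩ := ih
    refine ⟨C ((n + 1 : ℕ) : ℤ) * A ^ n * B ^ 2 + Q * (A + B), ?_, ?_⟩
    · rw [pow_succ (A + B) (n + 1), hQ1]
      push_cast
      simp only [map_add, map_one, map_natCast]
      ring
    · have h1 : (C ((n + 1 : ℕ) : ℤ) * A ^ n * B ^ 2).natDegree ≤ n * e + 2 * j := by
        refine natDegree_mul_le.trans ?_
        refine add_le_add ((natDegree_C_mul_le _ _).trans ((natDegree_pow_le).trans (Nat.mul_le_mul_left _ hA)))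
          ((natDegree_pow_le).trans (Nat.mul_le_mul_left _ hB))
      have h2 : (C ((n + 1 : ℕ) : ℤ) * A ^ n * B ^ 2).degree < ((n + 1) * e + j : ℕ) := by
        refine (degree_le_of_natDegree_le h1).trans_lt ?_
        have : n * e + 2 * j < (n + 1) * e + j := by nlinarith
        exact_mod_cast this
      have h3 : (Q * (A + B)).degree < ((n + 1) * e + j : ℕ) := by
        by_cases hQ : Q = 0
        · rw [hQ, zero_mul, degree_zero]
          exact WithBot.bot_lt_coe _
        by_cases hAB : A + B = 0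
        · rw [hAB, mul_zero, degree_zero]
          exact WithBot.bot_lt_coe _
        rw [degree_eq_natDegree hQ] at hQ2
        rw [degree_mul, degree_eq_natDegree hQ, degree_eq_natDegree hAB]
        have h4 : Q.natDegree < n * e + j := by exact_mod_cast hQ2
        have h5 : (A + B).natDegree ≤ e := (natDegree_add_le _ _).trans (max_le hA (hB.trans hj.le))
        have h6 : Q.natDegree + (A + B).natDegree < (n + 1) * e + j := by nlinarith
        exact_mod_cast h6
      exact (degree_add_le _ _).trans_lt (max_lt h2 h3)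

theorem nat_core (m e j : ℕ) (g r h : ℤ[X]) (c M : ℤ) (hm : 2 ≤ m) (hje : j < e) (hg : g.Monic)
    (hgn : g.natDegree = e) (hh : h.Monic) (hhn : h.natDegree = j) (hr : r.degree < ((m - 1) * e : ℕ))
    (hc : c ≠ 0) (hM : M ≠ 0) :
    ((C M * g + C c * h) ^ m - C (M ^ m) * (g ^ m + r)).natDegree = (m - 1) * e + j ∧
      ((C M * g + C c * h) ^ m - C (M ^ m) * (g ^ m + r)).leadingCoeff = m * c * M ^ (m - 1) := by
  obtain ⟨n, rfl⟩ : ∃ n, m = n + 1 := ⟨m - 1, by omega⟩
  rw [Nat.add_sub_cancel] at hr ⊢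
  have hAn : (C M * g).natDegree = e := by rw [natDegree_C_mul hM, hgn]
  have hBn : (C c * h).natDegree = j := by rw [natDegree_C_mul hc, hhn]
  have hAl : (C M * g).leadingCoeff = M := by rw [leadingCoeff_mul, leadingCoeff_C, hg.leadingCoeff, mul_one]
  have hBl : (C c * h).leadingCoeff = c := by rw [leadingCoeff_mul, leadingCoeff_C, hh.leadingCoeff, mul_one]
  obtain ⟨Q, hQ1, hQ2⟩ := expand (C M * g) (C c * h) e j hje hAn.le hBn.le n
  have hn1 : (((n + 1 : ℕ) : ℤ)) ≠ 0 := by exact_mod_cast Nat.succ_ne_zero n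
  have hA0 : C M * g ≠ 0 := by
    rw [← leadingCoeff_ne_zero, hAl]; exact hM
  have hB0 : C c * h ≠ 0 := by
    rw [← leadingCoeff_ne_zero, hBl]; exact hc
  set P : ℤ[X] := C ((n + 1 : ℕ) : ℤ) * (C M * g) ^ n * (C c * h) with hP
  have hPn : P.natDegree = n * e + j := by
    rw [hP, natDegree_mul (mul_ne_zero (C_ne_zero.2 hn1) (pow_ne_zero _ hA0)) hB0, natDegree_C_mul hn1,
      natDegree_pow, hAn, hBn]
  have hPl : P.leadingCoeff = ((n + 1 : ℕ) : ℤ) * c * M ^ n := by
    rw [hP, leadingCoeff_mul, leadingCoeff_mul, leadingCoeff_C, leadingCoeff_pow, hAl, hBl]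
    ring
  have hP0 : P ≠ 0 := mul_ne_zero (mul_ne_zero (C_ne_zero.2 hn1) (pow_ne_zero _ hA0)) hB0
  have hPd : P.degree = (n * e + j : ℕ) := by rw [degree_eq_natDegree hP0, hPn]
  have heq : (C M * g + C c * h) ^ (n + 1) - C (M ^ (n + 1)) * (g ^ (n + 1) + r) =
      P + (Q - C (M ^ (n + 1)) * r) := by
    rw [hQ1, mul_pow, C_pow]
    ring
  have hRd : (Q - C (M ^ (n + 1)) * r).degree < P.degree := by
    rw [hPd]
    refine (degree_sub_le _ _).trans_lt (max_lt hQ2 ?_)
    rw [degree_C_mul (pow_ne_zero _ hM)]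
    refine hr.trans_le ?_
    have : n * e ≤ n * e + j := Nat.le_add_right _ _
    exact_mod_cast this
  rw [heq]
  constructor
  · rw [natDegree_add_eq_left_of_degree_lt hRd, hPn]
  · rw [leadingCoeff_add_of_degree_lt' hRd, hPl]

/-- (NAT) -/
theorem t_NAT : S_NAT := by
  intro m e j k D c M hc hM
  exact nat_core m e j D.g D.r D.h c M D.hm (by have := D.hje; omega) D.hg D.hgn D.hh D.hhn D.hr hc hM

end Pool.Agent.J4H70.LV
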